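import Mathlib
import Pool.Agent.Y97.VC3.Main

/-!
# Very compressed loci in dimension three

Over an algebraically closed field of characteristic zero the dichotomy of Q1 fails in dimension
three, for infinitely many lengths: for every `s ≥ 8` and every `r` with `s + 5 ≤ r ≤ s ^ 2 / 4`
the locus `VC_{3, d}`, `d = binom(s + 2, 3) + r`, is not contained in the smoothable component and
its closure is not an irreducible component of `Hilb_d(𝔸³)`. As the lengths with socle degree `s`
are the `d` with `1 ≤ r ≤ (s + 1) (s + 2) / 2`, these are, asymptotically, half of all lengths.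
-/

set_option autoImplicit false

open AlgebraicGeometry

universe u

namespace Pool.Agent.Results.MP_5fb40f_ag.DimensionThree

open Pool.Agent.Helper226 Pool.Agent.Y97.VC3

/-- `VC_{n, d}` is contained in the smoothable component, the closure of the locus of the radical
ideals. -/
def InSmoothable {k : Type u} [Field k] {n d : ℕ}
    (𝓗 : HilbertScheme k (MvPolynomial (Fin n) k) d) : Prop :=
  𝓗.locus (IsVeryCompressed d) ⊆ closure (𝓗.locus Ideal.IsRadical)

/-- The closure of `VC_{n, d}` is an irreducible component of the Hilbert scheme. -/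
def IsComponent {k : Type u} [Field k] {n d : ℕ}
    (𝓗 : HilbertScheme k (MvPolynomial (Fin n) k) d) : Prop :=
  closure (𝓗.locus (IsVeryCompressed d)) ∈ irreducibleComponents 𝓗.H

/-- Let `k` be an algebraically closed field of characteristic zero.
(1) For all `s ≥ 8` and `s + 5 ≤ r ≤ s ^ 2 / 4`, `d = binom(s + 2, 3) + r`, the locus `VC_{3, d}` is
not contained in the smoothable component and its closure is not an irreducible component of the
Hilbert scheme of `d` points of affine `3`-space.
(2) In particular this holds for infinitely many `d`. -/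
theorem result (k : Type u) [Field k] [IsAlgClosed k] [CharZero k] :
    (∀ s r : ℕ, 8 ≤ s → s + 5 ≤ r → 4 * r ≤ s ^ 2 →
      ∃ 𝓗 : HilbertScheme k (MvPolynomial (Fin 3) k) ((s + 2).choose 3 + r),
        ¬ InSmoothable 𝓗 ∧ ¬ IsComponent 𝓗) ∧
    (∀ N : ℕ, ∃ d : ℕ, N ≤ d ∧ ∃ 𝓗 : HilbertScheme k (MvPolynomial (Fin 3) k) d,
      ¬ InSmoothable 𝓗 ∧ ¬ IsComponent 𝓗) := by
  have key : ∀ s r : ℕ, 8 ≤ s → s + 5 ≤ r → 4 * r ≤ s ^ 2 →
      ∃ 𝓗 : HilbertScheme k (MvPolynomial (Fin 3) k) ((s + 2).choose 3 + r),
        ¬ InSmoothable 𝓗 ∧ ¬ IsComponent 𝓗 := by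
    intro s r hs hr h4
    obtain ⟨-, h1, h2⟩ := main k s r (by omega) (by omega) h4
    exact ⟨_, h2 hs hr, h1⟩
  refine ⟨key, fun N => ?_⟩
  have hb : 4 * (N + 8 + 5) ≤ (N + 8) ^ 2 := by nlinarith
  exact ⟨_, by omega, key (N + 8) (N + 8 + 5) (by omega) (by omega) hb⟩

end Pool.Agent.Results.MP_5fb40f_ag.DimensionThree
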